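import Pool.Agent.K1H84.RD.Stm

/-! RD2 (helper92): the shell lemma. -/

set_option autoImplicit false

namespace Pool.Agent.K1H92.RD

open Finset
open Pool.Agent.W301.SS
open Pool.Agent.H807R2.Dav
open Pool.Agent.K1H84.RD

theorem norm_FA_le (A : Finset ℕ) (x : ℝ) : ‖FA A x‖ ≤ A.card := by
  rw [FA]
  refine (norm_sum_le _ _).trans ?_
  have h : ∀ a ∈ A, ‖ee ((a : ℝ) * x)‖ = 1 := fun a _ => by
    rw [ee_eq, Complex.norm_exp_ofReal_mul_I]
  rw [Finset.sum_congr rfl h]
  simp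

/-- sums over `range (g * n)` -/
theorem sum_range_mul (g n : ℕ) (hg : 0 < g) (f : ℕ → ℝ) :
    ∑ j ∈ range (g * n), f j = ∑ a ∈ range g, ∑ b ∈ range n, f (a + g * b) := by
  rw [← Finset.sum_product']
  refine Finset.sum_nbij' (fun j => (j % g, j / g)) (fun x => x.1 + g * x.2) ?_ ?_ ?_ ?_ ?_
  · intro j hj
    rw [mem_range] at hj
    rw [mem_product, mem_range, mem_range]
    exact ⟨Nat.mod_lt _ hg, Nat.div_lt_of_lt_mul hj⟩
  · rintro ⟨a, b⟩ h
    rw [mem_product, mem_range, mem_range] at h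
    rw [mem_range]
    have h1 : g * (b + 1) ≤ g * n := Nat.mul_le_mul_left g h.2
    have h2 := h.1
    show a + g * b < g * n
    rw [mul_add] at h1
    omega
  · intro j _
    exact Nat.mod_add_div j g
  · rintro ⟨a, b⟩ h
    rw [mem_product, mem_range, mem_range] at h
    show ((a + g * b) % g, (a + g * b) / g) = (a, b)
    rw [Nat.add_mul_mod_self_left, Nat.mod_eq_of_lt h.1, Nat.add_mul_div_left _ _ hg,
      Nat.div_eq_of_lt h.1, zero_add]
  · intro j _
    rw [Nat.mod_add_div]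

/-- (A1) -/
theorem A1 (g : ℕ) (hg : 2 ≤ g) (F : ℕ → ℝ → ℝ) (Λ : ℕ → ℝ) (h0 : ∀ i x, 0 ≤ F i x)
    (hp : ∀ i x, ∀ n : ℕ, F i (x + n) = F i x)
    (hs : ∀ i x, ∑ j ∈ range g, F i (x + (j : ℝ) / g) ≤ Λ i) (m : ℕ) :
    ∀ x : ℝ, ∑ j ∈ range (g ^ m), ∏ i ∈ range m, F i ((g : ℝ) ^ i * (x + (j : ℝ) / (g : ℝ) ^ m)) ≤
      ∏ i ∈ range m, Λ i := by
  have hg0 : (g : ℝ) ≠ 0 := by
    have : (0 : ℝ) < g := by exact_mod_cast (by omega : 0 < g)
    exact this.ne'
  have hΛ : ∀ i, 0 ≤ Λ i := fun i => (Finset.sum_nonneg fun j _ => h0 i _).trans (hs i 0)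
  induction m with
  | zero => intro x; simp
  | succ m ih =>
    intro x
    rw [pow_succ', sum_range_mul g _ (by omega)]
    have h1 : ∀ a ∈ range g, ∑ b ∈ range (g ^ m), ∏ i ∈ range (m + 1),
        F i ((g : ℝ) ^ i * (x + ((a + g * b : ℕ) : ℝ) / (g : ℝ) ^ (m + 1))) ≤
        F m ((g : ℝ) ^ m * x + (a : ℝ) / g) * ∏ i ∈ range m, Λ i := by
      intro a _
      have h2 : ∀ b ∈ range (g ^ m), ∏ i ∈ range (m + 1),
          F i ((g : ℝ) ^ i * (x + ((a + g * b : ℕ) : ℝ) / (g : ℝ) ^ (m + 1))) =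
          F m ((g : ℝ) ^ m * x + (a : ℝ) / g) * ∏ i ∈ range m,
            F i ((g : ℝ) ^ i * ((x + (a : ℝ) / (g : ℝ) ^ (m + 1)) + (b : ℝ) / (g : ℝ) ^ m)) := by
        intro b _
        rw [Finset.prod_range_succ, mul_comm]
        congr 1
        · rw [← hp m ((g : ℝ) ^ m * x + (a : ℝ) / g) b]
          congr 1
          push_cast
          field_simp
          ring
        · refine Finset.prod_congr rfl fun i _ => ?_
          congr 2
          push_cast
          field_simp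
          ring
      rw [Finset.sum_congr rfl h2, ← Finset.mul_sum]
      exact mul_le_mul_of_nonneg_left (ih _) (h0 _ _)
    refine (Finset.sum_le_sum h1).trans ?_
    rw [← Finset.sum_mul, Finset.prod_range_succ, mul_comm]
    exact mul_le_mul_of_nonneg_left (hs m _) (Finset.prod_nonneg fun i _ => hΛ i)

/-- three blocks cover the symmetric interval -/
theorem three_blocks (G : ℕ) (f : ℤ → ℝ) (hG : 1 ≤ G) (hf : ∀ j, 0 ≤ f j) (B : ℝ)
    (h : ∀ c : ℤ, ∑ j ∈ range G, f (c + j) ≤ B) :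
    ∑ j ∈ Icc (-(G : ℤ)) (G : ℤ), f j ≤ 3 * B := by
  have hG' : (0 : ℤ) < G := by exact_mod_cast (by omega : 0 < G)
  let e : ℤ → ℕ × ℕ := fun j => (((j + G) / G).toNat, ((j + G) % G).toNat)
  let k : ℕ × ℕ → ℤ := fun x => -(G : ℤ) + x.1 * G + x.2
  have hk : ∀ j ∈ Icc (-(G : ℤ)) (G : ℤ), k (e j) = j := by
    intro j hj
    rw [mem_Icc] at hj
    have e2 : 0 ≤ (j + G) / G := Int.ediv_nonneg (by linarith) hG'.le
    have e4 : 0 ≤ (j + G) % G := Int.emod_nonneg _ hG'.ne'
    show -(G : ℤ) + (((j + G) / G).toNat : ℤ) * G + (((j + G) % G).toNat : ℤ) = j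
    rw [Int.toNat_of_nonneg e2, Int.toNat_of_nonneg e4]
    have := Int.mul_ediv_add_emod (j + G) G
    linarith
  have h1 : ∑ j ∈ Icc (-(G : ℤ)) (G : ℤ), f j =
      ∑ x ∈ (Icc (-(G : ℤ)) (G : ℤ)).image e, f (k x) := by
    rw [Finset.sum_image]
    · exact Finset.sum_congr rfl fun j hj => by rw [hk j hj]
    · intro a ha b hb hab
      rw [← hk a ha, ← hk b hb, hab]
  have h2 : (Icc (-(G : ℤ)) (G : ℤ)).image e ⊆ range 3 ×ˢ range G := by
    intro x hx
    obtain ⟨j, hj, rfl⟩ := mem_image.1 hx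
    rw [mem_Icc] at hj
    rw [mem_product, mem_range, mem_range]
    have e1 : (j + G) / G < 3 := Int.ediv_lt_of_lt_mul hG' (by linarith)
    have e2 : 0 ≤ (j + G) / G := Int.ediv_nonneg (by linarith) hG'.le
    have e3 : (j + G) % G < G := Int.emod_lt_of_pos _ hG'
    have e4 : 0 ≤ (j + G) % G := Int.emod_nonneg _ hG'.ne'
    constructor
    · show ((j + G) / G).toNat < 3
      omega
    · show ((j + G) % G).toNat < G
      omega
  rw [h1]
  refine (Finset.sum_le_sum_of_subset_of_nonneg h2 fun x _ _ => hf _).trans ?_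
  rw [Finset.sum_product]
  have h3 : ∀ b ∈ range 3, ∑ y ∈ range G, f (k (b, y)) ≤ B := fun b _ =>
    h (-(G : ℤ) + (b : ℤ) * G)
  refine (Finset.sum_le_sum h3).trans ?_
  rw [Finset.sum_const, card_range, nsmul_eq_mul]
  norm_num

/-- the Farey fractions of order `Q` are separated -/
theorem farey_inj (Q M e a q a' q' : ℕ) (h1 : 1 ≤ q) (h1' : 1 ≤ q') (hQ : q ≤ Q) (hQ' : q' ≤ Q)
    (hc : Nat.Coprime a q) (hc' : Nat.Coprime a' q') (he : 1 ≤ e) (hM : 2 * Q ^ 2 * e ≤ M)
    (h : a * M / q / e = a' * M / q' / e) : a = a' ∧ q = q' := by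
  have hq : (0 : ℝ) < q := by exact_mod_cast h1
  have hq' : (0 : ℝ) < q' := by exact_mod_cast h1'
  have hQ1 : 1 ≤ Q := h1.trans hQ
  have hM0 : 0 < M := lt_of_lt_of_le (by positivity) hM
  have hMr : (0 : ℝ) < M := by exact_mod_cast hM0
  -- distance
  have hdist : ∀ a q a' q' : ℕ, 1 ≤ q → 1 ≤ q' → a * M / q / e = a' * M / q' / e →
      (a : ℝ) * M / q - (a' : ℝ) * M / q' < e + 1 := by
    intro a q a' q' h1 h1' h
    have hq : (0 : ℝ) < q := by exact_mod_cast h1
    have hq' : (0 : ℝ) < q' := by exact_mod_cast h1'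
    have g1 : a * M / q < (a * M / q / e + 1) * e := (Nat.div_lt_iff_lt_mul he).1 (Nat.lt_succ_self _)
    have g2 : a' * M / q' / e * e ≤ a' * M / q' := Nat.div_mul_le_self _ _
    have g3 : a * M / q < a' * M / q' + e := by
      rw [h, add_mul, one_mul] at g1
      omega
    have g4 : (a : ℝ) * M / q < (a * M / q : ℕ) + 1 := by
      have := Nat.lt_floor_add_one ((a * M : ℕ) / (q : ℝ) : ℝ)
      rw [Nat.floor_div_eq_div] at this
      push_cast at this
      exact_mod_cast this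
    have g5 : ((a' * M / q' : ℕ) : ℝ) ≤ (a' : ℝ) * M / q' := by
      have := @Nat.cast_div_le ℝ _ _ _ (a' * M) q'
      push_cast at this
      exact_mod_cast this
    have g6 : ((a * M / q : ℕ) : ℝ) + 1 ≤ (a' * M / q' : ℕ) + e := by exact_mod_cast g3
    linarith
  have d1 := hdist a q a' q' h1 h1' h
  have d2 := hdist a' q' a q h1' h1 h.symm
  have hab : (a : ℝ) * q' - a' * q = 0 := by
    by_contra hne
    have hint : (1 : ℝ) ≤ |(a : ℝ) * q' - a' * q| := by
      have : ((a : ℤ) * q' - a' * q) ≠ 0 := by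
        intro h0
        apply hne
        exact_mod_cast h0
      have := Int.one_le_abs this
      exact_mod_cast this
    have h5 : |(a : ℝ) * q' - a' * q| * M < (e + 1) * (q * q') := by
      have e1 : (a : ℝ) * M / q - (a' : ℝ) * M / q' = ((a : ℝ) * q' - a' * q) * M / (q * q') := by
        field_simp
      have e2 : (a' : ℝ) * M / q' - (a : ℝ) * M / q = -((a : ℝ) * q' - a' * q) * M / (q * q') := by
        field_simp
        ring
      rw [e1, div_lt_iff₀ (by positivity)] at d1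
      rw [e2, div_lt_iff₀ (by positivity)] at d2
      rcases abs_cases ((a : ℝ) * q' - a' * q) with ⟨h6, -⟩ | ⟨h6, -⟩ <;> rw [h6] <;> linarith
    have h6 : (M : ℝ) ≤ |(a : ℝ) * q' - a' * q| * M := le_mul_of_one_le_left hMr.le hint
    have h7 : (q : ℝ) * q' ≤ Q ^ 2 := by
      have b1 : (q : ℝ) ≤ Q := by exact_mod_cast hQ
      have b2 : (q' : ℝ) ≤ Q := by exact_mod_cast hQ'
      rw [pow_two]
      exact mul_le_mul b1 b2 hq'.le (by positivity)
    have h8 : (e : ℝ) + 1 ≤ 2 * e := by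
      have : (1 : ℝ) ≤ e := by exact_mod_cast he
      linarith
    have h9 : ((e : ℝ) + 1) * (q * q') ≤ 2 * e * Q ^ 2 :=
      mul_le_mul h8 h7 (by positivity) (by positivity)
    have h10 : 2 * (Q : ℝ) ^ 2 * e ≤ M := by exact_mod_cast hM
    nlinarith
  have hab' : a * q' = a' * q := by
    have : (a : ℝ) * q' = a' * q := by linarith
    exact_mod_cast this
  have k1 : q ∣ q' := (Nat.Coprime.dvd_of_dvd_mul_left hc.symm (Dvd.intro_left a' hab'.symm))
  have k2 : q' ∣ q := (Nat.Coprime.dvd_of_dvd_mul_left hc'.symm (Dvd.intro_left a hab'))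
  have k3 := Nat.dvd_antisymm k1 k2
  refine ⟨?_, k3⟩
  rw [k3] at hab'
  exact Nat.eq_of_mul_eq_mul_right (by omega) hab'

/-- the periodicity for natural numbers -/
theorem per_nat {F : ℝ → ℝ} (h : ∀ x, F (x + 1) = F x) (x : ℝ) (n : ℕ) : F (x + n) = F x := by
  induction n with
  | zero => simp
  | succ n ih =>
    push_cast
    rw [← add_assoc, h, ih]

theorem t_SHELL (hD : S_DSET) : S_SHELL := by
  intro g D F δ hg hδ hMaj k Q m u hQ hQm hmu
  obtain ⟨-, hcard, hFA, -⟩ := hD g D hg hMaj.sub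
  have hg0 : 0 < g := by omega
  have hgr : (0 : ℝ) < g := by exact_mod_cast hg0
  have hg1 : (1 : ℝ) ≤ g := by exact_mod_cast (by omega : 1 ≤ g)
  have hF0 : ∀ i x, 0 ≤ F i x := fun i x => by
    have := hMaj.bd i x 0 (by rw [abs_zero]; positivity)
    exact (norm_nonneg _).trans this
  -- the completed sequences
  set F' : ℕ → ℝ → ℝ := fun i x => if i < k then F i x else 1 with hF'
  set c' : ℕ → ℝ := fun i => if i < k then ((D i).card : ℝ) else g with hc'
  have hF'0 : ∀ i x, 0 ≤ F' i x := fun i x => by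
    simp only [hF']
    split_ifs
    · exact hF0 i x
    · exact zero_le_one
  have hc'0 : ∀ i, 0 ≤ c' i := fun i => by
    simp only [hc']
    split_ifs <;> positivity
  have hF'p : ∀ i x, ∀ n : ℕ, F' i (x + n) = F' i x := fun i x n => by
    simp only [hF']
    split_ifs
    · exact per_nat (hMaj.per i) x n
    · rfl
  have hF's : ∀ i x, ∑ j ∈ range g, F' i (x + (j : ℝ) / g) ≤ (g : ℝ) ^ δ * c' i := fun i x => by
    simp only [hF', hc']
    by_cases h : i < k
    · simp only [h, if_true]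
      exact hMaj.sum i x
    · simp only [h, if_false]
      rw [Finset.sum_const, card_range, nsmul_eq_mul, mul_one]
      exact le_mul_of_one_le_left hgr.le (Real.one_le_rpow hg1 hδ)
  set M := g ^ (k + 1) with hM
  set e := g ^ (k + 1 - m) with he
  have hMe : M = g ^ m * e := by
    rw [hM, he, ← pow_add]
    congr 1
    omega
  have he1 : 1 ≤ e := Nat.one_le_pow _ _ hg0
  have hMr : (0 : ℝ) < M := by
    have : 0 < M := by positivity
    exact_mod_cast this
  have hMr' : (M : ℝ) = (g : ℝ) ^ (k + 1) := by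
    rw [hM]
    push_cast
    ring
  set Λ : ℝ := (g : ℝ) ^ δ with hΛ
  have hΛ0 : 0 ≤ Λ := by positivity
  -- the bound for a single frequency
  have hone : ∀ (n : ℕ) (j : ℤ), |(j : ℝ)| ≤ (g : ℝ) ^ u →
      ‖FA (dset g D k) (((n : ℝ) + j) / M)‖ ≤
      (∏ i ∈ range m, F' i ((g : ℝ) ^ i * (0 + ((n / e : ℕ) : ℝ) / (g : ℝ) ^ m))) *
        ((∏ i ∈ Ico m (k + 1 - u), c' i) *
          ∏ i ∈ range u, F' (k + 1 - u + i) ((g : ℝ) ^ i *
            ((n : ℝ) / (g : ℝ) ^ u + (j : ℝ) / (g : ℝ) ^ u))) := by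
    intro n j hj
    rw [hFA k]
    rw [norm_prod]
    have h1 : ∏ i ∈ range k, ‖FA (D i) ((g : ℝ) ^ i * (((n : ℝ) + j) / M))‖ =
        ∏ i ∈ range (k + 1), (if i < k then ‖FA (D i) ((g : ℝ) ^ i * (((n : ℝ) + j) / M))‖
          else 1) := by
      rw [Finset.prod_range_succ, if_neg (lt_irrefl k), mul_one]
      exact Finset.prod_congr rfl fun i hi => by rw [if_pos (mem_range.1 hi)]
    rw [h1]
    have h2 : range (k + 1) = Ico 0 (k + 1) := by rw [range_eq_Ico]
    rw [h2, ← Finset.prod_Ico_consecutive _ (Nat.zero_le m) (by omega : m ≤ k + 1),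
      ← Finset.prod_Ico_consecutive _ (by omega : m ≤ k + 1 - u) (by omega : k + 1 - u ≤ k + 1),
      ← range_eq_Ico]
    have hnn : ∀ i, 0 ≤ (if i < k then ‖FA (D i) ((g : ℝ) ^ i * (((n : ℝ) + j) / M))‖
          else 1) := fun i => by split_ifs <;> positivity
    refine mul_le_mul ?_ (mul_le_mul ?_ ?_ (Finset.prod_nonneg fun i _ => hnn i)
      (Finset.prod_nonneg fun i _ => hc'0 i)) (mul_nonneg (Finset.prod_nonneg fun i _ => hnn i)
      (Finset.prod_nonneg fun i _ => hnn i)) (Finset.prod_nonneg fun i _ => hF'0 i _)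
    · refine Finset.prod_le_prod (fun i _ => hnn i) fun i hi => ?_
      rw [mem_range] at hi
      simp only [hF']
      split_ifs with hik
      · -- shift by at most 2 / g
        have h3 : (g : ℝ) ^ i * (((n : ℝ) + j) / M) =
            (g : ℝ) ^ i * (0 + ((n / e : ℕ) : ℝ) / (g : ℝ) ^ m) +
            (g : ℝ) ^ i * ((((n : ℝ) + j) / M) - ((n / e : ℕ) : ℝ) / (g : ℝ) ^ m) := by ring
        rw [h3]
        refine hMaj.bd i _ _ ?_
        have h4 : |(((n : ℝ) + j) / M) - ((n / e : ℕ) : ℝ) / (g : ℝ) ^ m| ≤ 2 / (g : ℝ) ^ m := by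
          have g1 : n < (n / e + 1) * e := (Nat.div_lt_iff_lt_mul he1).1 (Nat.lt_succ_self _)
          have g2 : n / e * e ≤ n := Nat.div_mul_le_self _ _
          have g3 : (n : ℝ) ≤ ((n / e : ℕ) : ℝ) * e + e := by
            have : n ≤ n / e * e + e := by
              rw [add_mul, one_mul] at g1
              omega
            exact_mod_cast this
          have g4 : ((n / e : ℕ) : ℝ) * e ≤ n := by exact_mod_cast g2
          have er : (0 : ℝ) < e := by exact_mod_cast he1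
          have hMe' : (M : ℝ) = (g : ℝ) ^ m * e := by
            rw [hMe]
            push_cast
            ring
          have hue : (g : ℝ) ^ u ≤ e := by
            rw [he]
            push_cast
            exact pow_le_pow_right₀ hg1 (by omega)
          have h5 : (((n : ℝ) + j) / M) - ((n / e : ℕ) : ℝ) / (g : ℝ) ^ m =
              ((n : ℝ) - ((n / e : ℕ) : ℝ) * e + j) / M := by
            rw [hMe']
            field_simp
            ring
          rw [h5, abs_div, abs_of_pos hMr, div_le_div_iff₀ hMr (by positivity), hMe']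
          have h6 : |(n : ℝ) - ((n / e : ℕ) : ℝ) * e + j| ≤ 2 * e := by
            rw [abs_le] at hj ⊢
            constructor <;> linarith [hj.1, hj.2]
          calc |(n : ℝ) - ((n / e : ℕ) : ℝ) * e + j| * (g : ℝ) ^ m ≤ 2 * e * (g : ℝ) ^ m :=
                mul_le_mul_of_nonneg_right h6 (by positivity)
            _ = 2 * ((g : ℝ) ^ m * e) := by ring
        rw [abs_mul, abs_of_pos (by positivity : (0 : ℝ) < (g : ℝ) ^ i)]
        calc (g : ℝ) ^ i * |(((n : ℝ) + j) / M) - ((n / e : ℕ) : ℝ) / (g : ℝ) ^ m| ≤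
              (g : ℝ) ^ (m - 1) * (2 / (g : ℝ) ^ m) := by
                refine mul_le_mul (pow_le_pow_right₀ hg1 (by omega)) h4 (abs_nonneg _)
                  (by positivity)
          _ = 2 / (g : ℝ) := by
              obtain ⟨l, rfl⟩ : ∃ l, m = l + 1 := ⟨m - 1, by omega⟩
              rw [Nat.add_sub_cancel, pow_succ]
              field_simp
      · exact le_rfl
    · refine Finset.prod_le_prod (fun i _ => hnn i) fun i _ => ?_
      simp only [hc']
      split_ifs
      · exact norm_FA_le _ _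
      · exact hg1
    · rw [Finset.prod_Ico_eq_prod_range]
      have h3 : k + 1 - (k + 1 - u) = u := by omega
      rw [h3]
      refine Finset.prod_le_prod (fun i _ => hnn _) fun i hi => ?_
      rw [mem_range] at hi
      simp only [hF']
      split_ifs with hik
      · have h4 : (g : ℝ) ^ (k + 1 - u + i) * (((n : ℝ) + j) / M) = (g : ℝ) ^ i *
            ((n : ℝ) / (g : ℝ) ^ u + (j : ℝ) / (g : ℝ) ^ u) := by
          have h5 : (M : ℝ) = (g : ℝ) ^ (k + 1 - u) * (g : ℝ) ^ u := by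
            rw [hMr', ← pow_add]
            congr 1
            omega
          rw [h5, pow_add]
          field_simp
        rw [h4]
        have := hMaj.bd (k + 1 - u + i) ((g : ℝ) ^ i *
            ((n : ℝ) / (g : ℝ) ^ u + (j : ℝ) / (g : ℝ) ^ u)) 0 (by rw [abs_zero]; positivity)
        rwa [add_zero] at this
      · exact le_rfl
  -- the sum over `j`
  have hsumj : ∀ n : ℕ, ∑ j ∈ Icc (-((g ^ u : ℕ) : ℤ)) ((g ^ u : ℕ) : ℤ),
      ‖FA (dset g D k) (((n : ℝ) + (j : ℝ)) / M)‖ ≤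
      (∏ i ∈ range m, F' i ((g : ℝ) ^ i * (0 + ((n / e : ℕ) : ℝ) / (g : ℝ) ^ m))) *
        ((∏ i ∈ Ico m (k + 1 - u), c' i) * (3 * ∏ i ∈ range u, (Λ * c' (k + 1 - u + i)))) := by
    intro n
    have h1 : ∀ j ∈ Icc (-((g ^ u : ℕ) : ℤ)) ((g ^ u : ℕ) : ℤ), |(j : ℝ)| ≤ (g : ℝ) ^ u := by
      intro j hj
      rw [mem_Icc] at hj
      have a1 : (-((g ^ u : ℕ) : ℤ) : ℝ) ≤ j := by exact_mod_cast hj.1
      have a2 : (j : ℝ) ≤ ((g ^ u : ℕ) : ℤ) := by exact_mod_cast hj.2
      push_cast at a1 a2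
      exact abs_le.2 ⟨a1, a2⟩
    refine (Finset.sum_le_sum fun j hj => hone n j (h1 j hj)).trans ?_
    rw [← Finset.mul_sum, ← Finset.mul_sum]
    refine mul_le_mul_of_nonneg_left (mul_le_mul_of_nonneg_left ?_
      (Finset.prod_nonneg fun i _ => hc'0 i)) (Finset.prod_nonneg fun i _ => hF'0 i _)
    refine three_blocks (g ^ u) (fun j => ∏ i ∈ range u, F' (k + 1 - u + i) ((g : ℝ) ^ i *
            ((n : ℝ) / (g : ℝ) ^ u + (j : ℝ) / (g : ℝ) ^ u))) (Nat.one_le_pow _ _ hg0)
      (fun j => Finset.prod_nonneg fun i _ => hF'0 _ _) _ fun c => ?_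
    have h2 := A1 g hg (fun i => F' (k + 1 - u + i)) (fun i => Λ * c' (k + 1 - u + i))
      (fun i x => hF'0 _ _) (fun i x n => hF'p _ _ _) (fun i x => hF's _ _) u
      ((n : ℝ) / (g : ℝ) ^ u + (c : ℝ) / (g : ℝ) ^ u)
    refine le_trans (le_of_eq ?_) h2
    refine Finset.sum_congr rfl fun j _ => Finset.prod_congr rfl fun i _ => ?_
    congr 2
    push_cast
    ring
  -- the sum over the fractions
  set B : ℝ := (∏ i ∈ Ico m (k + 1 - u), c' i) * (3 * ∏ i ∈ range u, (Λ * c' (k + 1 - u + i)))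
    with hB
  have hB0 : 0 ≤ B := by
    refine mul_nonneg (Finset.prod_nonneg fun i _ => hc'0 i) (mul_nonneg (by norm_num)
      (Finset.prod_nonneg fun i _ => mul_nonneg hΛ0 (hc'0 _)))
  have hfar : ∑ q ∈ Icc 1 Q, ∑ a ∈ (range q).filter (fun a => Nat.Coprime a q),
      ∏ i ∈ range m, F' i ((g : ℝ) ^ i * (0 + ((a * M / q / e : ℕ) : ℝ) / (g : ℝ) ^ m)) ≤
      ∏ i ∈ range m, (Λ * c' i) := by
    refine le_trans ?_ (A1 g hg F' (fun i => Λ * c' i) hF'0 hF'p hF's m 0)
    rw [Finset.sum_sigma']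
    set T := (Icc 1 Q).sigma (fun q => (range q).filter (fun a => Nat.Coprime a q)) with hT
    have hinj : Set.InjOn (fun x : (_ : ℕ) × ℕ => x.2 * M / x.1 / e) T := by
      rintro ⟨q, a⟩ hx ⟨q', a'⟩ hx' h
      rw [hT, mem_coe, mem_sigma, mem_filter, mem_Icc] at hx hx'
      have := farey_inj Q M e a q a' q' hx.1.1 hx'.1.1 hx.1.2 hx'.1.2 hx.2.2 hx'.2.2 he1 (by
        rw [hMe]
        exact Nat.mul_le_mul_right e hQm) h
      obtain ⟨rfl, rfl⟩ := this
      rfl
    have h1 := Finset.sum_image (f := fun j : ℕ => ∏ i ∈ range m,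
      F' i ((g : ℝ) ^ i * (0 + (j : ℝ) / (g : ℝ) ^ m))) hinj
    refine le_trans (le_of_eq h1.symm) ?_
    refine Finset.sum_le_sum_of_subset_of_nonneg ?_ fun j _ _ =>
      Finset.prod_nonneg fun i _ => hF'0 _ _
    intro j hj
    obtain ⟨⟨q, a⟩, hx, rfl⟩ := mem_image.1 hj
    rw [hT, mem_sigma, mem_filter, mem_Icc, mem_range] at hx
    rw [mem_range]
    refine Nat.div_lt_of_lt_mul ?_
    refine Nat.div_lt_of_lt_mul ?_
    have h2 : a * M < q * M := Nat.mul_lt_mul_of_pos_right hx.2.1 (by positivity)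
    show a * M < q * (e * g ^ m)
    rw [mul_comm e, ← hMe]
    exact h2
  have htot : ∑ q ∈ Icc 1 Q, ∑ a ∈ (range q).filter (fun a => Nat.Coprime a q),
      ∑ j ∈ Icc (-((g ^ u : ℕ) : ℤ)) ((g ^ u : ℕ) : ℤ),
      ‖FA (dset g D k) ((((a * M / q : ℕ) : ℝ) + (j : ℝ)) / (M : ℝ))‖ ≤
      (∏ i ∈ range m, (Λ * c' i)) * B := by
    refine le_trans (Finset.sum_le_sum fun q _ => Finset.sum_le_sum fun a _ =>
      hsumj (a * M / q)) ?_
    refine le_trans (le_of_eq ?_) (mul_le_mul_of_nonneg_right hfar hB0)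
    rw [Finset.sum_mul]
    refine Finset.sum_congr rfl fun q _ => ?_
    rw [Finset.sum_mul]
  refine htot.trans ?_
  -- the final computation
  have hprod : (∏ i ∈ range m, c' i) * ((∏ i ∈ Ico m (k + 1 - u), c' i) *
      ∏ i ∈ range u, c' (k + 1 - u + i)) = (dset g D k).card * g := by
    have h1 : ∏ i ∈ range u, c' (k + 1 - u + i) = ∏ i ∈ Ico (k + 1 - u) (k + 1), c' i := by
      rw [Finset.prod_Ico_eq_prod_range]
      congr 2
      omega
    rw [h1, range_eq_Ico, Finset.prod_Ico_consecutive _ (by omega : m ≤ k + 1 - u)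
      (by omega : k + 1 - u ≤ k + 1), Finset.prod_Ico_consecutive _ (Nat.zero_le m)
      (by omega : m ≤ k + 1), ← range_eq_Ico, Finset.prod_range_succ, hcard k]
    push_cast
    congr 1
    · exact Finset.prod_congr rfl fun i hi => by
        simp only [hc', if_pos (mem_range.1 hi)]
    · simp only [hc', if_neg (lt_irrefl k)]
  have hfin : (∏ i ∈ range m, (Λ * c' i)) * B = 3 * g * Λ ^ (m + u) * (dset g D k).card := by
    rw [hB, Finset.prod_mul_distrib, Finset.prod_mul_distrib, Finset.prod_const,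
      Finset.prod_const, card_range, card_range]
    calc (Λ ^ m * ∏ i ∈ range m, c' i) * ((∏ i ∈ Ico m (k + 1 - u), c' i) *
          (3 * (Λ ^ u * ∏ i ∈ range u, c' (k + 1 - u + i)))) =
          3 * (Λ ^ m * Λ ^ u) * ((∏ i ∈ range m, c' i) * ((∏ i ∈ Ico m (k + 1 - u), c' i) *
            ∏ i ∈ range u, c' (k + 1 - u + i))) := by ring
      _ = _ := by
          rw [hprod, ← pow_add]
          ring
  rw [hfin]
  have hpw : Λ ^ (m + u) = (g : ℝ) ^ (δ * (m + u)) := by
    rw [hΛ, ← Real.rpow_natCast, ← Real.rpow_mul hgr.le]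
    congr 1
    push_cast
    ring
  rw [hpw]
  refine mul_le_mul_of_nonneg_right (mul_le_mul_of_nonneg_right ?_ (by positivity))
    (by positivity)
  nlinarith

end Pool.Agent.K1H92.RD
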